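import Pool.Agent.DS.NonLin

set_option autoImplicit false

/-! # Denjoy-Schwarz argument: compositions of rescaled maps -/

namespace Pool.Agent.DS

open Complex Metric Set Filter Topology

/-- One step in the rescaled coordinate. -/
theorem step {C b T : ℝ} (hC : 1 ≤ C) (hT : 0 < T) (hb : 0 ≤ b) (hbT : 8 * C * T * b ≤ 1)
    {ζ e E : ℂ} (hζ : ζ ≠ 0) (hζT : ‖ζ‖ ≤ 2 * T) (he : ‖e‖ ≤ C * b) (hE : ‖E‖ ≤ C * b ^ 2 * ‖ζ‖ ^ 3) :
    ζ + e * ζ ^ 2 + E ≠ 0 ∧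
      ‖(ζ + e * ζ ^ 2 + E)⁻¹ - ζ⁻¹ + e‖ ≤ 18 * C ^ 2 * T * b ^ 2 := by
  have hn : 0 < ‖ζ‖ := norm_pos_iff.2 hζ
  set q : ℂ := e * ζ + E / ζ with hq
  have hbn : b * ‖ζ‖ ≤ 1 / 4 := by
    have h1 : b * ‖ζ‖ ≤ b * (2 * T) := mul_le_mul_of_nonneg_left hζT hb
    have h2 : 8 * T * b ≤ 8 * C * T * b := by
      have : 0 ≤ T * b := by positivity
      nlinarith
    linarith
  have hE' : ‖E / ζ‖ ≤ C * b ^ 2 * ‖ζ‖ ^ 2 := by
    rw [norm_div, div_le_iff₀ hn]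
    calc ‖E‖ ≤ C * b ^ 2 * ‖ζ‖ ^ 3 := hE
      _ = _ := by ring
  have hqb : ‖q‖ ≤ 2 * C * (b * ‖ζ‖) := by
    calc ‖q‖ ≤ ‖e * ζ‖ + ‖E / ζ‖ := norm_add_le _ _
      _ ≤ C * b * ‖ζ‖ + C * b ^ 2 * ‖ζ‖ ^ 2 := by
        refine add_le_add ?_ hE'
        rw [norm_mul]
        exact mul_le_mul_of_nonneg_right he hn.le
      _ = C * (b * ‖ζ‖) + C * (b * ‖ζ‖) * (b * ‖ζ‖) := by ring
      _ ≤ C * (b * ‖ζ‖) + C * (b * ‖ζ‖) * 1 := by
        have : 0 ≤ C * (b * ‖ζ‖) := by positivity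
        have h3 : b * ‖ζ‖ ≤ 1 := by linarith
        linarith [mul_le_mul_of_nonneg_left h3 this]
      _ = _ := by ring
  have hq2 : ‖q‖ ≤ 1 / 2 := by
    have h1 : b * ‖ζ‖ ≤ b * (2 * T) := mul_le_mul_of_nonneg_left hζT hb
    have h2 : 2 * C * (b * ‖ζ‖) ≤ 2 * C * (b * (2 * T)) :=
      mul_le_mul_of_nonneg_left h1 (by linarith)
    linarith
  have h1q : 1 / 2 ≤ ‖1 + q‖ := by
    have : ‖(1 : ℂ)‖ ≤ ‖1 + q‖ + ‖q‖ := by
      calc ‖(1 : ℂ)‖ = ‖(1 + q) - q‖ := by rw [add_sub_cancel_right]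
        _ ≤ _ := norm_sub_le _ _
    rw [norm_one] at this
    linarith
  have h1q0 : 1 + q ≠ 0 := by
    intro h
    rw [h, norm_zero] at h1q
    linarith
  have hprod : ζ + e * ζ ^ 2 + E = ζ * (1 + q) := by
    rw [hq]
    field_simp
    ring
  rw [hprod]
  refine ⟨mul_ne_zero hζ h1q0, ?_⟩
  have hid : (ζ * (1 + q))⁻¹ - ζ⁻¹ + e = q ^ 2 / ((1 + q) * ζ) - E / ζ / ζ := by
    have hqq : e = (q - E / ζ) / ζ := by
      rw [hq]
      field_simp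
      ring
    rw [hqq]
    field_simp
    ring
  rw [hid]
  have hA : ‖q ^ 2 / ((1 + q) * ζ)‖ ≤ 2 * (2 * C * (b * ‖ζ‖)) ^ 2 / ‖ζ‖ := by
    rw [norm_div, norm_mul, norm_pow, div_le_div_iff₀ (by positivity) hn]
    have h5 : ‖q‖ ^ 2 ≤ (2 * C * (b * ‖ζ‖)) ^ 2 := by gcongr
    calc ‖q‖ ^ 2 * ‖ζ‖ ≤ (2 * C * (b * ‖ζ‖)) ^ 2 * ‖ζ‖ := mul_le_mul_of_nonneg_right h5 hn.le
      _ = 2 * (2 * C * (b * ‖ζ‖)) ^ 2 * ((1 / 2) * ‖ζ‖) := by ring
      _ ≤ 2 * (2 * C * (b * ‖ζ‖)) ^ 2 * (‖1 + q‖ * ‖ζ‖) := by gcongr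
  have hB : ‖E / ζ / ζ‖ ≤ C * b ^ 2 * ‖ζ‖ := by
    rw [norm_div _ ζ, div_le_iff₀ hn]
    calc ‖E / ζ‖ ≤ C * b ^ 2 * ‖ζ‖ ^ 2 := hE'
      _ = _ := by ring
  calc _ ≤ ‖q ^ 2 / ((1 + q) * ζ)‖ + ‖E / ζ / ζ‖ := norm_sub_le _ _
    _ ≤ 2 * (2 * C * (b * ‖ζ‖)) ^ 2 / ‖ζ‖ + C * b ^ 2 * ‖ζ‖ := add_le_add hA hB
    _ = (8 * C ^ 2 + C) * b ^ 2 * ‖ζ‖ := by
      field_simp
      ring
    _ ≤ (9 * C ^ 2) * b ^ 2 * (2 * T) := by
      have : C ≤ C ^ 2 := by nlinarith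
      gcongr
      linarith
    _ = _ := by ring

/-- The rescaled compositions stay bounded. -/
theorem comp_bounded {f : ℂ → ℂ} {C R : ℝ} (hC : 1 ≤ C)
    (htay : ∀ x ∈ closedBall (0 : ℂ) R, ∀ s : ℝ, 0 < s → s ≤ 1 →
      (∀ u ∈ ball x s, deriv f u ≠ 0) → ‖deriv (deriv f) x‖ ≤ C / s * ‖deriv f x‖ ∧
      ∀ h : ℂ, ‖h‖ < s / 4 → ‖f (x + h) - f x - deriv f x * h - deriv (deriv f) x / 2 * h ^ 2‖ ≤
        C * ‖deriv f x‖ * ‖h‖ ^ 3 / s ^ 2)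
    {x a e : ℕ → ℂ} {s : ℕ → ℝ} (hx : ∀ n, ‖x n‖ ≤ R) (hxs : ∀ n, x (n + 1) = f (x n))
    (ha : ∀ n, a n ≠ 0) (has : ∀ n, a (n + 1) = deriv f (x n) * a n) (hs0 : ∀ n, 0 < s n)
    (hs1 : ∀ n, s n ≤ 1) (hnz : ∀ n, ∀ u ∈ ball (x n) (s n), deriv f u ≠ 0)
    (he : ∀ n, e n = a n * deriv (deriv f) (x n) / (2 * deriv f (x n)))
    {T : ℝ} (hT : 0 < T) {m : ℕ} (hm1 : ∀ n ≥ m, 16 * C * T * (‖a n‖ / s n) ≤ 1)
    (hm2 : ∀ n ≥ m, ‖∑ j ∈ Finset.Ico m n, e j‖ ≤ 1 / (4 * T))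
    (hm3 : ∀ n ≥ m, 18 * C ^ 2 * T * ∑ j ∈ Finset.Ico m n, (‖a j‖ / s j) ^ 2 ≤ 1 / (4 * T))
    {w : ℂ} (hw : ‖w - x m‖ ≤ T * ‖a m‖) (k : ℕ) :
    ‖f^[k] w - x (m + k)‖ ≤ 2 * T * ‖a (m + k)‖ := by
  by_cases hw0 : w = x m
  · have : ∀ k, f^[k] w = x (m + k) := by
      intro k
      induction k with
      | zero => simpa using hw0
      | succ k ih => rw [Function.iterate_succ_apply', ih, ← add_assoc, hxs]
    rw [this k, sub_self, norm_zero]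
    positivity
  set ζ₀ : ℂ := (w - x m) / a m with hζ₀
  have hζ₀0 : ζ₀ ≠ 0 := div_ne_zero (sub_ne_zero.2 hw0) (ha m)
  have ham : 0 < ‖a m‖ := norm_pos_iff.2 (ha m)
  have hζ₀T : ‖ζ₀‖ ≤ T := by
    rw [hζ₀, norm_div, div_le_iff₀ ham]
    exact hw
  have hζ₀i : 1 / T ≤ ‖ζ₀⁻¹‖ := by
    rw [norm_inv, one_div]
    exact inv_anti₀ (norm_pos_iff.2 hζ₀0) hζ₀T
  have key : ∀ k, ∃ ζ : ℂ, ζ ≠ 0 ∧ f^[k] w - x (m + k) = a (m + k) * ζ ∧ ‖ζ‖ ≤ 2 * T ∧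
      ‖ζ⁻¹ - ζ₀⁻¹ + ∑ j ∈ Finset.Ico m (m + k), e j‖ ≤
        18 * C ^ 2 * T * ∑ j ∈ Finset.Ico m (m + k), (‖a j‖ / s j) ^ 2 := by
    intro k
    induction k with
    | zero =>
      refine ⟨ζ₀, hζ₀0, ?_, by linarith, by simp⟩
      rw [hζ₀]
      have := ha m
      simp only [Function.iterate_zero, id_eq, add_zero]
      field_simp
    | succ k ih =>
      obtain ⟨ζ, hζ, heq, hζT, hest⟩ := ih
      set n := m + k with hn
      have hnm : m ≤ n := by omega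
      have hfx : deriv f (x n) ≠ 0 := hnz n _ (mem_ball_self (hs0 n))
      have hfx0 : 0 < ‖deriv f (x n)‖ := norm_pos_iff.2 hfx
      have han : 0 < ‖a n‖ := norm_pos_iff.2 (ha n)
      obtain ⟨hN, hTay⟩ := htay (x n) (by rw [mem_closedBall_zero_iff]; exact hx n) (s n) (hs0 n)
        (hs1 n) (hnz n)
      set b : ℝ := ‖a n‖ / s n with hb
      have hb0 : 0 ≤ b := by have := hs0 n; positivity
      have hbT := hm1 n hnm
      have hab : ‖a n‖ = b * s n := by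
        rw [hb]
        have := (hs0 n).ne'
        field_simp
      have hh : ‖a n * ζ‖ < s n / 4 := by
        rw [norm_mul]
        have h1 : ‖a n‖ * ‖ζ‖ ≤ b * s n * (2 * T) := by
          rw [← hab]
          exact mul_le_mul_of_nonneg_left hζT han.le
        have h2 : 16 * T * b ≤ 1 := by
          have h3 : 0 ≤ T * b := by positivity
          nlinarith
        have h4 : 0 ≤ (1 - 16 * T * b) * s n := mul_nonneg (by linarith) (hs0 n).le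
        have h5 := hs0 n
        nlinarith
      set E : ℂ := (f (x n + a n * ζ) - f (x n) - deriv f (x n) * (a n * ζ) -
        deriv (deriv f) (x n) / 2 * (a n * ζ) ^ 2) / a (n + 1) with hE
      have han1 : a (n + 1) ≠ 0 := ha (n + 1)
      have hEb : ‖E‖ ≤ C * b ^ 2 * ‖ζ‖ ^ 3 := by
        rw [hE, norm_div, div_le_iff₀ (norm_pos_iff.2 han1), has, norm_mul]
        refine (hTay _ hh).trans (le_of_eq ?_)
        rw [norm_mul, hb]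
        have := (hs0 n).ne'
        field_simp
      have heb : ‖e n‖ ≤ C * b := by
        rw [he, norm_div, norm_mul, norm_mul, Complex.norm_ofNat]
        rw [div_le_iff₀ (by positivity)]
        calc ‖a n‖ * ‖deriv (deriv f) (x n)‖ ≤ ‖a n‖ * (C / s n * ‖deriv f (x n)‖) :=
              mul_le_mul_of_nonneg_left hN han.le
          _ = C * b * ‖deriv f (x n)‖ := by rw [hb]; ring
          _ ≤ C * b * (2 * ‖deriv f (x n)‖) := by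
              have h6 : 0 ≤ C * b := by positivity
              exact mul_le_mul_of_nonneg_left (by linarith) h6
      obtain ⟨hne, hst⟩ := step hC hT hb0 (by
        have : 0 ≤ C * T * b := by positivity
        linarith : 8 * C * T * b ≤ 1) hζ hζT heb hEb
      set ζ' : ℂ := ζ + e n * ζ ^ 2 + E with hζ'
      have heq' : f^[k + 1] w - x (m + (k + 1)) = a (m + (k + 1)) * ζ' := by
        have hw' : f^[k] w = x n + a n * ζ := by rw [← heq]; ring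
        have hidx : m + (k + 1) = n + 1 := by omega
        rw [hidx, Function.iterate_succ_apply', hw', hxs, hζ', hE, he, mul_add, mul_add,
          mul_div_cancel₀ _ han1, has]
        field_simp
        ring
      have hsum1 : ∑ j ∈ Finset.Ico m (m + (k + 1)), e j =
          ∑ j ∈ Finset.Ico m n, e j + e n := by
        rw [← add_assoc, Finset.sum_Ico_succ_top (by omega)]
      have hsum2 : ∑ j ∈ Finset.Ico m (m + (k + 1)), (‖a j‖ / s j) ^ 2 =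
          ∑ j ∈ Finset.Ico m n, (‖a j‖ / s j) ^ 2 + b ^ 2 := by
        rw [← add_assoc, Finset.sum_Ico_succ_top (by omega)]
      have hest' : ‖ζ'⁻¹ - ζ₀⁻¹ + ∑ j ∈ Finset.Ico m (m + (k + 1)), e j‖ ≤
          18 * C ^ 2 * T * ∑ j ∈ Finset.Ico m (m + (k + 1)), (‖a j‖ / s j) ^ 2 := by
        rw [hsum1, hsum2, mul_add]
        calc ‖ζ'⁻¹ - ζ₀⁻¹ + (∑ j ∈ Finset.Ico m n, e j + e n)‖ =
              ‖(ζ⁻¹ - ζ₀⁻¹ + ∑ j ∈ Finset.Ico m n, e j) + (ζ'⁻¹ - ζ⁻¹ + e n)‖ := by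
                congr 1
                ring
          _ ≤ _ := norm_add_le _ _
          _ ≤ _ := add_le_add hest hst
      refine ⟨ζ', hne, heq', ?_, hest'⟩
      -- size of `ζ'`
      have hge : m ≤ m + (k + 1) := by omega
      have g1 := hm2 _ hge
      have g2 := hest'.trans (hm3 _ hge)
      have g3 : ‖ζ₀⁻¹‖ ≤ ‖ζ'⁻¹‖ + 1 / (4 * T) + 1 / (4 * T) := by
        calc ‖ζ₀⁻¹‖ = ‖ζ'⁻¹ - (ζ'⁻¹ - ζ₀⁻¹ + ∑ j ∈ Finset.Ico m (m + (k + 1)), e j) +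
              ∑ j ∈ Finset.Ico m (m + (k + 1)), e j‖ := by
                congr 1
                ring
          _ ≤ ‖ζ'⁻¹ - (ζ'⁻¹ - ζ₀⁻¹ + ∑ j ∈ Finset.Ico m (m + (k + 1)), e j)‖ +
              ‖∑ j ∈ Finset.Ico m (m + (k + 1)), e j‖ := norm_add_le _ _
          _ ≤ (‖ζ'⁻¹‖ + ‖ζ'⁻¹ - ζ₀⁻¹ + ∑ j ∈ Finset.Ico m (m + (k + 1)), e j‖) +
              ‖∑ j ∈ Finset.Ico m (m + (k + 1)), e j‖ := by
                gcongr
                exact norm_sub_le _ _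
          _ ≤ _ := by linarith
      have g4 : 1 / (2 * T) ≤ ‖ζ'⁻¹‖ := by
        have e1 : 1 / (4 * T) + 1 / (4 * T) = 1 / (2 * T) := by field_simp; ring
        have e2 : 1 / T = 1 / (2 * T) + 1 / (2 * T) := by field_simp; ring
        linarith
      rw [norm_inv] at g4
      have hz' : 0 < ‖ζ'‖ := norm_pos_iff.2 hne
      rw [div_le_iff₀ (by positivity)] at g4
      rw [inv_mul_eq_div, le_div_iff₀ hz', one_mul] at g4
      exact g4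
  obtain ⟨ζ, -, heq, hζT, -⟩ := key k
  rw [heq, norm_mul]
  calc ‖a (m + k)‖ * ‖ζ‖ ≤ ‖a (m + k)‖ * (2 * T) := mul_le_mul_of_nonneg_left hζT (norm_nonneg _)
    _ = _ := by ring

end Pool.Agent.DS
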