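import Pool.Agent.DS.Comp
import Pool.Agent.AS.Local
import Pool.Agent.AS.Escape
import Pool.Agent.CT.H6

set_option autoImplicit false

/-! # Denjoy-Schwarz argument: the theorem -/

namespace Pool.Agent.DS

open Complex Metric Set Filter Topology Pool.Agent.AS

/-- All iterates are eventually injective on the image domains. -/
theorem eventually_inj (hImg : Stmt_CompImage) (hChain : Stmt_CompChain) (hSC : Stmt_SC)
    (hCov : Stmt_Cover) (hInv : Stmt_FatInv) {f : ℂ → ℂ} {R : ℝ} {V : Set ℂ}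
    (hf : Differentiable ℂ f) (hnc : ∃ z, deriv f z ≠ 0) (hV : Comp f R V)
    (hdis : ∀ n m : ℕ, n ≠ m → Disjoint (f^[n] '' V) (f^[m] '' V)) :
    ∃ m : ℕ, ∀ n : ℕ, InjOn (f^[n]) (f^[m] '' V) := by
  have hcomp : ∀ j, Comp f R (f^[j] '' V) := local_comp hImg hf hnc hV
  have hfd : Differentiable ℂ (deriv f) := differentiable_deriv hf
  have hfin := local_finite hfd hnc (isCompact_closedBall (0 : ℂ) R)
  have hm : ∃ m : ℕ, ∀ j ≥ m, ∀ z ∈ f^[j] '' V, deriv f z ≠ 0 := by
    have hbad : {j : ℕ | ∃ z ∈ f^[j] '' V, deriv f z = 0}.Finite := by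
      have h1 : ∀ j ∈ {j : ℕ | ∃ z ∈ f^[j] '' V, deriv f z = 0}, ∃ z : ℂ,
          z ∈ closedBall (0 : ℂ) R ∩ {z | deriv f z = 0} ∧ z ∈ f^[j] '' V := by
        rintro j ⟨z, hz, hz0⟩
        refine ⟨z, ⟨?_, hz0⟩, hz⟩
        rw [mem_closedBall_zero_iff]
        simpa using (hcomp j).bd 0 z hz
      choose! c hc1 hc2 using h1
      refine Set.Finite.of_finite_image (f := c) (hfin.subset ?_) ?_
      · rintro _ ⟨j, hj, rfl⟩
        exact hc1 j hj
      · intro i hi j hj hij
        by_contra hne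
        exact Set.disjoint_left.1 (hdis i j hne) (hc2 i hi) (hij ▸ hc2 j hj)
    obtain ⟨m, hm⟩ := hbad.bddAbove
    refine ⟨m + 1, fun j hj z hz h0 => ?_⟩
    have := hm (show j ∈ {j : ℕ | ∃ z ∈ f^[j] '' V, deriv f z = 0} from ⟨z, hz, h0⟩)
    omega
  obtain ⟨m, hm⟩ := hm
  have hinjf : ∀ j ≥ m, InjOn f (f^[j] '' V) := by
    intro j hj
    have hc := hcomp j
    have hc' := hcomp (j + 1)
    rw [local_image_succ] at hc'
    have hb : ∀ j, Bornology.IsBounded (f^[j] '' V) := fun j => by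
      refine (isBounded_closedBall (x := (0 : ℂ)) (r := R)).subset fun z hz => ?_
      rw [mem_closedBall_zero_iff]
      simpa using (hcomp j).bd 0 z hz
    have hb' : Bornology.IsBounded (f '' (f^[j] '' V)) := by
      rw [← local_image_succ]
      exact hb (j + 1)
    refine hCov f _ hf hc.op hc.conn (hb j) (hSC _ hc'.op hc'.conn hb'
      (hChain f R _ hf hc')) ?_ (hm j hj)
    intro z hz hzV
    exact hc.fr z hz ((hInv f hf hnc z).1 (hc'.fat hzV))
  refine ⟨m, fun n => ?_⟩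
  induction n with
  | zero => exact injOn_id _
  | succ n ih =>
    rw [Function.iterate_succ']
    refine InjOn.comp (t := f^[m + n] '' V) (hinjf (m + n) (by omega)) ih ?_
    rintro _ ⟨z, hz, rfl⟩
    refine ⟨z, hz, ?_⟩
    rw [← Function.iterate_add_apply, add_comm]

/-- The second derivative of an iterate over the first one. -/
theorem nonlin_sum {f : ℂ → ℂ} (hf : Differentiable ℂ f) {z : ℂ}
    (hnz : ∀ n : ℕ, deriv f (f^[n] z) ≠ 0) (n : ℕ) :
    deriv (f^[n]) z ≠ 0 ∧ deriv (deriv (f^[n])) z / deriv (f^[n]) z =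
      2 * ∑ j ∈ Finset.range n,
        deriv (f^[j]) z * deriv (deriv f) (f^[j] z) / (2 * deriv f (f^[j] z)) := by
  induction n with
  | zero => simp
  | succ n ih =>
    obtain ⟨ih1, ih2⟩ := ih
    have hfn := hf.iterate n
    have hd : deriv (f^[n + 1]) = fun w => deriv f (f^[n] w) * deriv (f^[n]) w := by
      funext w
      exact deriv_iterate_succ' hf n w
    have hne : deriv (f^[n + 1]) z ≠ 0 := by
      rw [hd]
      exact mul_ne_zero (hnz n) ih1
    refine ⟨hne, ?_⟩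
    have h1 : HasDerivAt (fun w => deriv f (f^[n] w) * deriv (f^[n]) w)
        (deriv (deriv f) (f^[n] z) * deriv (f^[n]) z * deriv (f^[n]) z +
          deriv f (f^[n] z) * deriv (deriv (f^[n])) z) z := by
      have e1 : HasDerivAt (fun w => deriv f (f^[n] w))
          (deriv (deriv f) (f^[n] z) * deriv (f^[n]) z) z :=
        ((differentiable_deriv hf) _).hasDerivAt.comp z (hfn z).hasDerivAt
      exact e1.fun_mul ((differentiable_deriv hfn) z).hasDerivAt
    rw [Finset.sum_range_succ, mul_add, ← ih2, hd, h1.deriv]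
    have := hnz n
    field_simp
    ring

theorem main (hImg : Stmt_CompImage) (hChain : Stmt_CompChain) (hSC : Stmt_SC)
    (hCov : Stmt_Cover) (hInv : Stmt_FatInv) (hMon : Stmt_FatMontel) {f : ℂ → ℂ} {R : ℝ}
    {V : Set ℂ} (hf : Differentiable ℂ f) (hnc : ∃ z, deriv f z ≠ 0) (hV : Comp f R V)
    (hdis : ∀ n m : ℕ, n ≠ m → Disjoint (f^[n] '' V) (f^[m] '' V)) {z : ℂ} (hz : z ∈ V)
    {s : ℕ → ℝ} (hs0 : ∀ n, 0 < s n) (hs1 : ∀ n, s n ≤ 1)
    (hnz : ∀ n, ∀ u ∈ ball (f^[n] z) (s n), deriv f u ≠ 0)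
    (hsum : Summable fun n => (‖deriv (f^[n]) z‖ / s n) ^ 2) {ℓ : ℂ}
    (hlim : Tendsto (fun n : ℕ => deriv (deriv (f^[n])) z / deriv (f^[n]) z) atTop (𝓝 ℓ)) :
    False := by
  have hnz' : ∀ n : ℕ, deriv f (f^[n] z) ≠ 0 := fun n => hnz n _ (mem_ball_self (hs0 n))
  obtain ⟨m₀, hinj⟩ := eventually_inj hImg hChain hSC hCov hInv hf hnc hV hdis
  have hR0 : 0 ≤ R := (norm_nonneg _).trans (hV.bd 0 z hz)
  obtain ⟨C, hC, htay⟩ := taylor hf hnc R
  have hcomp : ∀ j, Comp f R (f^[j] '' V) := local_comp hImg hf hnc hV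
  -- notation at the point `z`
  set a : ℕ → ℂ := fun n => deriv (f^[n]) z with ha
  set e : ℕ → ℂ := fun n => a n * deriv (deriv f) (f^[n] z) / (2 * deriv f (f^[n] z)) with he
  have ha0 : ∀ n, a n ≠ 0 := fun n => (nonlin_sum hf hnz' n).1
  have has : ∀ n, a (n + 1) = deriv f (f^[n] z) * a n := fun n => deriv_iterate_succ' hf n z
  have hesum : ∀ n, ∑ j ∈ Finset.range n, e j = deriv (deriv (f^[n])) z / deriv (f^[n]) z / 2 := by
    intro n
    rw [(nonlin_sum hf hnz' n).2]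
    ring
  -- shifted sequences
  set X : ℕ → ℂ := fun n => f^[n + m₀] z with hX
  set A : ℕ → ℂ := fun n => a (n + m₀) / a m₀ with hA
  set S : ℕ → ℝ := fun n => s (n + m₀) with hS
  set E : ℕ → ℂ := fun n => e (n + m₀) / a m₀ with hE
  have ham : 0 < ‖a m₀‖ := norm_pos_iff.2 (ha0 m₀)
  set T : ℝ := 2 * R + 1 with hT
  have hT0 : 0 < T := by linarith
  -- smallness
  have hbt : Tendsto (fun n => ‖A n‖ / S n) atTop (𝓝 0) := by
    have h1 : Tendsto (fun n => (‖deriv (f^[n]) z‖ / s n) ^ 2) atTop (𝓝 0) :=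
      hsum.tendsto_atTop_zero
    have h2 : Tendsto (fun n => ‖a n‖ / s n) atTop (𝓝 0) := by
      have h3 := (Real.continuous_sqrt.tendsto 0).comp h1
      rw [Real.sqrt_zero] at h3
      refine h3.congr fun n => ?_
      have : 0 ≤ ‖a n‖ / s n := div_nonneg (norm_nonneg _) (hs0 n).le
      exact Real.sqrt_sq this
    have h4 := ((tendsto_add_atTop_iff_nat m₀).2 h2).div_const ‖a m₀‖
    rw [zero_div] at h4
    refine h4.congr fun n => ?_
    rw [hA, hS]
    simp only [norm_div]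
    ring
  have hE1 : CauchySeq fun n => ∑ j ∈ Finset.range n, E j := by
    have h1 : Tendsto (fun n => ∑ j ∈ Finset.range n, e j) atTop (𝓝 (ℓ / 2)) := by
      refine (hlim.div_const 2).congr fun n => ?_
      rw [hesum]
    have h2 : Tendsto (fun n => ∑ j ∈ Finset.range n, E j) atTop
        (𝓝 ((ℓ / 2 - ∑ j ∈ Finset.range m₀, e j) / a m₀)) := by
      have h3 := (((tendsto_add_atTop_iff_nat m₀).2 h1).sub_const
        (∑ j ∈ Finset.range m₀, e j)).div_const (a m₀)
      refine h3.congr fun n => ?_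
      rw [hE]
      simp only
      rw [← Finset.sum_div]
      congr 1
      rw [add_comm n m₀, Finset.sum_range_add]
      simp [add_comm]
    exact h2.cauchySeq
  have hB1 : CauchySeq fun n => ∑ j ∈ Finset.range n, (‖A j‖ / S j) ^ 2 := by
    have h1 : Summable fun n => (‖A n‖ / S n) ^ 2 := by
      have h2 := ((summable_nat_add_iff m₀).2 hsum).div_const (‖a m₀‖ ^ 2)
      refine h2.congr fun n => ?_
      rw [hA, hS]
      simp only [norm_div]
      rw [ha]
      field_simp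
    exact h1.hasSum.tendsto_sum_nat.cauchySeq
  have hε : 0 < 1 / (4 * T) := by positivity
  have hε' : 0 < 1 / (4 * T) / (18 * C ^ 2 * T) := by positivity
  have hev1 : ∀ᶠ n in atTop, ‖A n‖ / S n < 1 / (16 * C * T) :=
    hbt.eventually (gt_mem_nhds (by positivity))
  obtain ⟨N1, hN1⟩ := eventually_atTop.1 hev1
  obtain ⟨N2, hN2⟩ := Metric.cauchySeq_iff.1 hE1 _ hε
  obtain ⟨N3, hN3⟩ := Metric.cauchySeq_iff.1 hB1 _ hε'
  set m : ℕ := max N1 (max N2 N3) with hm
  have hmN1 : N1 ≤ m := le_max_left _ _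
  have hmN2 : N2 ≤ m := (le_max_left _ _).trans (le_max_right _ _)
  have hmN3 : N3 ≤ m := (le_max_right _ _).trans (le_max_right _ _)
  have hm1 : ∀ n ≥ m, 16 * C * T * (‖A n‖ / S n) ≤ 1 := by
    intro n hn
    have := (hN1 n (hmN1.trans hn)).le
    rw [le_div_iff₀ (by positivity)] at this
    linarith
  have hm2 : ∀ n ≥ m, ‖∑ j ∈ Finset.Ico m n, E j‖ ≤ 1 / (4 * T) := by
    intro n hn
    have := hN2 n (hmN2.trans hn) m hmN2
    rw [dist_eq_norm, ← Finset.sum_Ico_eq_sub _ hn] at this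
    exact this.le
  have hm3 : ∀ n ≥ m, 18 * C ^ 2 * T * ∑ j ∈ Finset.Ico m n, (‖A j‖ / S j) ^ 2 ≤
      1 / (4 * T) := by
    intro n hn
    have := hN3 n (hmN3.trans hn) m hmN3
    rw [dist_eq_norm, ← Finset.sum_Ico_eq_sub _ hn] at this
    have h1 := (le_abs_self _).trans this.le
    rw [le_div_iff₀ (by positivity)] at h1
    linarith
  -- the composition lemma
  have hXR : ∀ n, ‖X n‖ ≤ R := fun n => hV.bd _ z hz
  have hcb : ∀ w : ℂ, ‖w - X m‖ ≤ T * ‖A m‖ → ∀ k, ‖f^[k] w - X (m + k)‖ ≤ 2 * T * ‖A (m + k)‖ := by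
    intro w hw k
    refine comp_bounded (f := f) hC htay (x := X) (a := A) (e := E) (s := S) hXR ?_ ?_ ?_ ?_ ?_ ?_ ?_
      hT0 hm1 hm2 hm3 hw k
    · intro n
      show f^[n + 1 + m₀] z = f (f^[n + m₀] z)
      rw [← Function.iterate_succ_apply' f]
      congr 2
      omega
    · intro n
      exact div_ne_zero (ha0 _) (ha0 _)
    · intro n
      show a (n + 1 + m₀) / a m₀ = deriv f (f^[n + m₀] z) * (a (n + m₀) / a m₀)
      have : n + 1 + m₀ = (n + m₀) + 1 := by omega
      rw [this, has]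
      ring
    · exact fun n => hs0 _
    · exact fun n => hs1 _
    · exact fun n => hnz _
    · intro n
      show e (n + m₀) / a m₀ = a (n + m₀) / a m₀ * deriv (deriv f) (f^[n + m₀] z) /
        (2 * deriv f (f^[n + m₀] z))
      rw [he]
      ring
  -- a large disc in the Fatou set
  have hAm : 0 < ‖A m‖ := norm_pos_iff.2 (div_ne_zero (ha0 _) (ha0 _))
  have hrad : 0 < T * ‖A m‖ := by positivity
  have hfat : ball (X m) (T * ‖A m‖) ⊆ Fat f := by
    refine hMon f hf _ (R + 1) isOpen_ball ?_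
    intro k w hw
    have h1 := hcb w (by rw [mem_ball, dist_eq_norm] at hw; exact hw.le) k
    have h2 := hm1 (m + k) (by omega)
    have h3 : ‖A (m + k)‖ ≤ ‖A (m + k)‖ / S (m + k) := by
      rw [le_div_iff₀ (hs0 _)]
      have h4 : S (m + k) ≤ 1 := hs1 _
      nlinarith [norm_nonneg (A (m + k))]
    have h5 : 2 * T * ‖A (m + k)‖ ≤ 1 := by
      have h6 : 0 ≤ T * (‖A (m + k)‖ / S (m + k)) := by
        have := hs0 (m + k + m₀)
        positivity
      nlinarith
    calc ‖f^[k] w‖ = ‖(f^[k] w - X (m + k)) + X (m + k)‖ := by rw [sub_add_cancel]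
      _ ≤ ‖f^[k] w - X (m + k)‖ + ‖X (m + k)‖ := norm_add_le _ _
      _ ≤ R + 1 := by linarith [hXR (m + k)]
  -- it is contained in the component
  set V' : Set ℂ := f^[m₀] '' V with hV'
  have hV'c : Comp f R V' := hcomp m₀
  set z' : ℂ := f^[m₀] z with hz'
  have hz'V : z' ∈ V' := ⟨z, hz, rfl⟩
  have hXm : X m = f^[m] z' := by
    rw [hz', ← Function.iterate_add_apply]
  set W : Set ℂ := f^[m] '' V' with hW
  have hWc : Comp f R W := by
    have : W = f^[m + m₀] '' V := by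
      rw [hW, hV', ← image_comp, ← Function.iterate_add]
    rw [this]
    exact hcomp _
  have hXW : X m ∈ W := ⟨z', hz'V, hXm.symm⟩
  have hballW : ball (X m) (T * ‖A m‖) ⊆ W := by
    intro w hw
    by_contra hwW
    obtain ⟨u, hu, huW⟩ := local_frontier (convex_ball (X m) (T * ‖A m‖)).isPreconnected hWc.op
      (mem_ball_self hrad) hXW hw hwW
    exact hWc.fr u huW (hfat hu)
  -- the inverse of the iterate
  obtain ⟨-, -, g, hgd, hg⟩ := Pool.Agent.CT.h6 V' hV'c.op (f^[m]) (hf.iterate m).differentiableOn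
    (hinj m)
  have hgW : DifferentiableOn ℂ g W := hgd
  have hgmaps : MapsTo g (ball (X m) (T * ‖A m‖)) (closedBall (g (X m)) (2 * R)) := by
    intro w hw
    obtain ⟨u, hu, huw⟩ := hballW hw
    have e1 : g w = u := by rw [← huw, hg u hu]
    have e2 : g (X m) = z' := by rw [hXm, hg z' hz'V]
    rw [e1, e2, mem_closedBall, dist_eq_norm]
    have b1 : ‖u‖ ≤ R := hV'c.bd 0 u hu
    have b2 : ‖z'‖ ≤ R := hV'c.bd 0 z' hz'V
    calc ‖u - z'‖ ≤ ‖u‖ + ‖z'‖ := norm_sub_le _ _
      _ ≤ 2 * R := by linarith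
  have hder := Complex.norm_deriv_le_div_of_mapsTo_ball (hgW.mono hballW) hgmaps hrad
  have hchain : deriv g (X m) * A m = 1 := by
    have h1 : HasDerivAt (f^[m]) (deriv (f^[m]) z') z' := (hf.iterate m z').hasDerivAt
    have h2 : HasDerivAt g (deriv g (X m)) (f^[m] z') := by
      rw [← hXm]
      exact (hgW.differentiableAt (hWc.op.mem_nhds hXW)).hasDerivAt
    have h3 := h2.comp z' h1
    have h4 : (g ∘ f^[m]) =ᶠ[𝓝 z'] id := by
      filter_upwards [hV'c.op.mem_nhds hz'V] with u hu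
      exact hg u hu
    have h5 := h3.congr_of_eventuallyEq h4.symm
    have h6 := h5.unique (hasDerivAt_id z')
    have h7 : deriv (f^[m]) z' = A m := by
      show deriv (f^[m]) z' = a (m + m₀) / a m₀
      rw [eq_div_iff (ha0 m₀)]
      show deriv (f^[m]) (f^[m₀] z) * deriv (f^[m₀]) z = deriv (f^[m + m₀]) z
      rw [Function.iterate_add]
      exact (deriv_comp z (hf.iterate m _) (hf.iterate m₀ z)).symm
    rw [← h7]
    exact h6
  have h8 : ‖deriv g (X m)‖ * ‖A m‖ = 1 := by rw [← norm_mul, hchain, norm_one]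
  have h9 : 1 ≤ 2 * R / (T * ‖A m‖) * ‖A m‖ := by
    rw [← h8]
    exact mul_le_mul_of_nonneg_right hder hAm.le
  have h10 : 2 * R / (T * ‖A m‖) * ‖A m‖ = 2 * R / T := by
    field_simp
  rw [h10, le_div_iff₀ hT0] at h9
  linarith

end Pool.Agent.DS
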