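import Mathlib

set_option autoImplicit false

/-! # Denjoy-Schwarz argument: control of the nonlinearity in terms of the distance to the critical
points -/

namespace Pool.Agent.DS

open Complex Metric Set Filter Topology

theorem differentiable_deriv {f : ℂ → ℂ} (hf : Differentiable ℂ f) : Differentiable ℂ (deriv f) :=
  fun z => ((hf.analyticAt z).deriv).differentiableAt

theorem nonlin_local {f : ℂ → ℂ} (hf : Differentiable ℂ f) (hnc : ∃ z, deriv f z ≠ 0) (p : ℂ) :
    ∃ C : ℝ, 0 ≤ C ∧ ∀ᶠ x in 𝓝 p, ∀ s : ℝ, 0 < s → s ≤ 1 → (∀ u ∈ ball x s, deriv f u ≠ 0) →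
      ‖deriv (deriv f) x‖ ≤ C / s * ‖deriv f x‖ := by
  have hd := differentiable_deriv hf
  have han : AnalyticAt ℂ (deriv f) p := hd.analyticAt p
  have hne : ¬ ∀ᶠ z in 𝓝 p, deriv f z = 0 := by
    intro h
    obtain ⟨z, hz⟩ := hnc
    have hA : AnalyticOnNhd ℂ (deriv f) univ := fun z _ => hd.analyticAt z
    exact hz (hA.eqOn_zero_of_preconnected_of_eventuallyEq_zero isPreconnected_univ (mem_univ p) h
      (mem_univ z))
  obtain ⟨k, g, hg, hgp, hev⟩ := han.exists_eventuallyEq_pow_smul_nonzero_iff.2 hne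
  have hgn : 0 < ‖g p‖ := norm_pos_iff.2 hgp
  set A : ℝ := (‖deriv g p‖ + 1) / (‖g p‖ / 2) with hA
  have hA0 : 0 ≤ A := by positivity
  refine ⟨k + A, by positivity, ?_⟩
  have e1 : ∀ᶠ x in 𝓝 p, ∀ᶠ u in 𝓝 x, deriv f u = (u - p) ^ k • g u := hev.eventually_nhds
  have e2 : ∀ᶠ x in 𝓝 p, AnalyticAt ℂ g x := hg.eventually_analyticAt
  have e3 : ∀ᶠ x in 𝓝 p, ‖g p‖ / 2 < ‖g x‖ :=
    hg.continuousAt.norm.eventually (lt_mem_nhds (by linarith))
  have e4 : ∀ᶠ x in 𝓝 p, ‖deriv g x‖ < ‖deriv g p‖ + 1 :=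
    hg.deriv.continuousAt.norm.eventually (gt_mem_nhds (by linarith))
  filter_upwards [e1, e2, e3, e4] with x h1 h2 h3 h4 s hs hs1 hnz
  have hfx : deriv f x = (x - p) ^ k * g x := by simpa using h1.self_of_nhds
  have hfx0 : deriv f x ≠ 0 := hnz x (mem_ball_self hs)
  have hder : deriv (deriv f) x = k * (x - p) ^ (k - 1) * g x + (x - p) ^ k * deriv g x := by
    have hh : deriv f =ᶠ[𝓝 x] fun u => (u - p) ^ k * g u := by
      filter_upwards [h1] with u hu
      simpa using hu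
    rw [hh.deriv_eq]
    have hp : HasDerivAt (fun u : ℂ => (u - p) ^ k) (k * (x - p) ^ (k - 1)) x := by
      simpa using ((hasDerivAt_id x).sub_const p).fun_pow k
    exact (hp.mul h2.differentiableAt.hasDerivAt).deriv
  have hg' : ‖deriv g x‖ ≤ A * ‖g x‖ := by
    have h5 : ‖deriv g p‖ + 1 = A * (‖g p‖ / 2) := by rw [hA]; field_simp
    calc ‖deriv g x‖ ≤ A * (‖g p‖ / 2) := by rw [← h5]; exact h4.le
      _ ≤ A * ‖g x‖ := mul_le_mul_of_nonneg_left h3.le hA0
  have hsec : ‖(x - p) ^ k * deriv g x‖ ≤ A / s * ‖deriv f x‖ := by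
    rw [hfx, norm_mul, norm_mul]
    have h6 : A ≤ A / s := by
      rw [le_div_iff₀ hs]
      nlinarith
    calc ‖(x - p) ^ k‖ * ‖deriv g x‖ ≤ ‖(x - p) ^ k‖ * (A * ‖g x‖) :=
          mul_le_mul_of_nonneg_left hg' (norm_nonneg _)
      _ = A * (‖(x - p) ^ k‖ * ‖g x‖) := by ring
      _ ≤ _ := mul_le_mul_of_nonneg_right h6 (by positivity)
  have hfirst : ‖(k : ℂ) * (x - p) ^ (k - 1) * g x‖ ≤ k / s * ‖deriv f x‖ := by
    rcases Nat.eq_zero_or_pos k with hk | hk
    · subst hk
      simp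
    · have hxp : x ≠ p := by
        intro h
        apply hfx0
        rw [hfx, h, sub_self, zero_pow hk.ne', zero_mul]
      have hp0 : deriv f p = 0 := by
        have := hev.self_of_nhds
        simpa [hk.ne'] using this
      have hdist : s ≤ ‖x - p‖ := by
        by_contra hlt
        push Not at hlt
        refine hnz p ?_ hp0
        rw [mem_ball, dist_comm, dist_eq_norm]
        exact hlt
      have hxp0 : 0 < ‖x - p‖ := norm_pos_iff.2 (sub_ne_zero.2 hxp)
      have h7 : ‖(x - p) ^ k‖ = ‖x - p‖ * ‖(x - p) ^ (k - 1)‖ := by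
        rw [← norm_mul, ← pow_succ']
        congr 2
        omega
      rw [hfx, norm_mul, norm_mul, norm_mul, h7, Complex.norm_natCast]
      have h8 : (k : ℝ) ≤ k / s * ‖x - p‖ := by
        rw [div_mul_eq_mul_div, le_div_iff₀ hs]
        exact mul_le_mul_of_nonneg_left hdist (Nat.cast_nonneg k)
      calc (k : ℝ) * ‖(x - p) ^ (k - 1)‖ * ‖g x‖
          ≤ (k / s * ‖x - p‖) * ‖(x - p) ^ (k - 1)‖ * ‖g x‖ := by gcongr
        _ = _ := by ring
  rw [hder]
  calc _ ≤ ‖(k : ℂ) * (x - p) ^ (k - 1) * g x‖ + ‖(x - p) ^ k * deriv g x‖ := norm_add_le _ _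
    _ ≤ k / s * ‖deriv f x‖ + A / s * ‖deriv f x‖ := add_le_add hfirst hsec
    _ = (k + A) / s * ‖deriv f x‖ := by ring

theorem nonlin_unif {f : ℂ → ℂ} (hf : Differentiable ℂ f) (hnc : ∃ z, deriv f z ≠ 0) (R : ℝ) :
    ∃ C : ℝ, 0 ≤ C ∧ ∀ x ∈ closedBall (0 : ℂ) R, ∀ s : ℝ, 0 < s → s ≤ 1 →
      (∀ u ∈ ball x s, deriv f u ≠ 0) → ‖deriv (deriv f) x‖ ≤ C / s * ‖deriv f x‖ := by
  refine (isCompact_closedBall (0 : ℂ) R).induction_on (p := fun S => ∃ C : ℝ, 0 ≤ C ∧ ∀ x ∈ S,
    ∀ s : ℝ, 0 < s → s ≤ 1 → (∀ u ∈ ball x s, deriv f u ≠ 0) →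
      ‖deriv (deriv f) x‖ ≤ C / s * ‖deriv f x‖) ?_ ?_ ?_ ?_
  · exact ⟨0, le_rfl, fun x hx => absurd hx (notMem_empty x)⟩
  · rintro S T hST ⟨C, hC, h⟩
    exact ⟨C, hC, fun x hx => h x (hST hx)⟩
  · rintro S T ⟨C, hC, h⟩ ⟨D, hD, h'⟩
    refine ⟨max C D, le_max_of_le_left hC, fun x hx s hs hs1 hnz => ?_⟩
    rcases hx with hx | hx
    · refine (h x hx s hs hs1 hnz).trans ?_
      gcongr
      exact le_max_left _ _
    · refine (h' x hx s hs hs1 hnz).trans ?_
      gcongr
      exact le_max_right _ _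
  · intro p _
    obtain ⟨C, hC, h⟩ := nonlin_local hf hnc p
    exact ⟨_, mem_nhdsWithin_of_mem_nhds h, C, hC, fun x hx => hx⟩

/-- Second order Taylor expansion with a remainder controlled by the distance to the critical
points. -/
theorem taylor {f : ℂ → ℂ} (hf : Differentiable ℂ f) (hnc : ∃ z, deriv f z ≠ 0) (R : ℝ) :
    ∃ C : ℝ, 1 ≤ C ∧ ∀ x ∈ closedBall (0 : ℂ) R, ∀ s : ℝ, 0 < s → s ≤ 1 →
      (∀ u ∈ ball x s, deriv f u ≠ 0) → ‖deriv (deriv f) x‖ ≤ C / s * ‖deriv f x‖ ∧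
      ∀ h : ℂ, ‖h‖ < s / 4 → ‖f (x + h) - f x - deriv f x * h - deriv (deriv f) x / 2 * h ^ 2‖ ≤
        C * ‖deriv f x‖ * ‖h‖ ^ 3 / s ^ 2 := by
  obtain ⟨C, hC, hCx⟩ := nonlin_unif hf hnc (R + 1)
  set M : ℝ := 16 * C * Real.exp C with hM
  have hM0 : 0 ≤ M := by positivity
  have hd1 := differentiable_deriv hf
  have hd2 := differentiable_deriv hd1
  refine ⟨max 1 (max C M), le_max_left _ _, fun x hx s hs hs1 hnz => ?_⟩
  have hx1 : x ∈ closedBall (0 : ℂ) (R + 1) := closedBall_subset_closedBall (by linarith) hx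
  have hfx : 0 < ‖deriv f x‖ := norm_pos_iff.2 (hnz x (mem_ball_self hs))
  refine ⟨(hCx x hx1 s hs hs1 hnz).trans ?_, ?_⟩
  · gcongr
    exact (le_max_left _ _).trans (le_max_right _ _)
  have hmem : ∀ u ∈ ball x (s / 2), u ∈ closedBall (0 : ℂ) (R + 1) := by
    intro u hu
    rw [mem_closedBall_zero_iff] at hx ⊢
    rw [mem_ball, dist_eq_norm] at hu
    calc ‖u‖ = ‖(u - x) + x‖ := by rw [sub_add_cancel]
      _ ≤ ‖u - x‖ + ‖x‖ := norm_add_le _ _
      _ ≤ R + 1 := by linarith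
  -- second derivative in terms of the first one
  have h2 : ∀ u ∈ ball x (s / 2), ‖deriv (deriv f) u‖ ≤ 2 * C / s * ‖deriv f u‖ := by
    intro u hu
    have h := hCx u (hmem u hu) (s / 2) (by linarith) (by linarith) (fun v hv => hnz v (by
      rw [mem_ball] at hu hv ⊢
      have := dist_triangle v u x
      linarith))
    have e : C / (s / 2) = 2 * C / s := by field_simp
    rwa [e] at h
  -- first derivative
  have h1 : ∀ u ∈ ball x (s / 2), ‖deriv f u‖ ≤ Real.exp C * ‖deriv f x‖ := by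
    intro u hu
    have hux : ‖u - x‖ < s / 2 := by rwa [mem_ball, dist_eq_norm] at hu
    have hpath : ∀ t ∈ Icc (0 : ℝ) 1, x + (t : ℂ) * (u - x) ∈ ball x (s / 2) := by
      intro t ht
      rw [mem_ball, dist_eq_norm, add_sub_cancel_left, norm_mul, Complex.norm_real,
        Real.norm_of_nonneg ht.1]
      calc t * ‖u - x‖ ≤ 1 * ‖u - x‖ := mul_le_mul_of_nonneg_right ht.2 (norm_nonneg _)
        _ < s / 2 := by linarith
    have hder : ∀ t : ℝ, HasDerivAt (fun t : ℝ => deriv f (x + (t : ℂ) * (u - x)))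
        (deriv (deriv f) (x + (t : ℂ) * (u - x)) * (u - x)) t := by
      intro t
      have hl : HasDerivAt (fun t : ℝ => x + (t : ℂ) * (u - x)) (u - x) t := by
        have := ((hasDerivAt_id t).ofReal_comp.mul_const (u - x)).const_add x
        simpa using this
      exact (hd1 _).hasDerivAt.comp t hl
    have hg := norm_le_gronwallBound_of_norm_deriv_right_le
      (f := fun t : ℝ => deriv f (x + (t : ℂ) * (u - x)))
      (f' := fun t : ℝ => deriv (deriv f) (x + (t : ℂ) * (u - x)) * (u - x)) (δ := ‖deriv f x‖)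
      (K := C) (ε := 0) (a := 0) (b := 1)
      (fun t _ => (hder t).continuousAt.continuousWithinAt)
      (fun t _ => (hder t).hasDerivWithinAt) (by simp) (by
        intro t ht
        have hm := hpath t ⟨ht.1, ht.2.le⟩
        rw [norm_mul, add_zero]
        calc _ ≤ (2 * C / s * ‖deriv f (x + (t : ℂ) * (u - x))‖) * (s / 2) :=
              mul_le_mul (h2 _ hm) hux.le (norm_nonneg _) (by positivity)
          _ = C * ‖deriv f (x + (t : ℂ) * (u - x))‖ := by field_simp) 1 (by simp)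
    simp only [ofReal_one, one_mul, add_sub_cancel, sub_zero] at hg
    rw [gronwallBound_ε0, mul_one] at hg
    linarith [mul_comm (Real.exp C) ‖deriv f x‖]
  have h2' : ∀ u ∈ ball x (s / 2), ‖deriv (deriv f) u‖ ≤
      2 * C / s * (Real.exp C * ‖deriv f x‖) := fun u hu =>
    (h2 u hu).trans (mul_le_mul_of_nonneg_left (h1 u hu) (by positivity))
  -- third derivative
  have h3 : ∀ u ∈ ball x (s / 4), ‖deriv (deriv (deriv f)) u‖ ≤ M * ‖deriv f x‖ / s ^ 2 := by
    intro u hu
    have hc := Complex.norm_deriv_le_of_forall_mem_sphere_norm_le (f := deriv (deriv f)) (c := u)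
      (R := s / 8) (C := 2 * C / s * (Real.exp C * ‖deriv f x‖)) (by linarith)
      hd2.diffContOnCl (fun v hv => h2' v (by
        rw [mem_ball] at hu ⊢
        rw [mem_sphere] at hv
        have := dist_triangle v u x
        linarith))
    refine hc.trans (le_of_eq ?_)
    rw [hM]
    field_simp
    ring
  intro h hh
  set K : ℝ := M * ‖deriv f x‖ / s ^ 2 with hK
  have hK0 : 0 ≤ K := by positivity
  have hsub : closedBall x ‖h‖ ⊆ ball x (s / 4) := closedBall_subset_ball hh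
  have hconv : Convex ℝ (closedBall x ‖h‖) := convex_closedBall x ‖h‖
  have hxm : x ∈ closedBall x ‖h‖ := mem_closedBall_self (norm_nonneg _)
  have hle : ∀ v ∈ closedBall x ‖h‖, ‖v - x‖ ≤ ‖h‖ := by
    intro v hv
    rwa [mem_closedBall, dist_eq_norm] at hv
  have s1 : ∀ v ∈ closedBall x ‖h‖, ‖deriv (deriv f) v - deriv (deriv f) x‖ ≤ K * ‖h‖ := by
    intro v hv
    have := hconv.norm_image_sub_le_of_norm_deriv_le (f := deriv (deriv f)) (C := K)
      (fun y _ => hd2 y) (fun y hy => h3 y (hsub hy)) hxm hv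
    exact this.trans (mul_le_mul_of_nonneg_left (hle v hv) hK0)
  have s2 : ∀ v ∈ closedBall x ‖h‖,
      ‖deriv f v - deriv f x - deriv (deriv f) x * (v - x)‖ ≤ K * ‖h‖ * ‖h‖ := by
    intro v hv
    have hda : ∀ y, HasDerivAt (fun y => deriv f y - deriv (deriv f) x * (y - x))
        (deriv (deriv f) y - deriv (deriv f) x) y := by
      intro y
      have := (hd1 y).hasDerivAt.fun_sub (((hasDerivAt_id y).sub_const x).const_mul
        (deriv (deriv f) x))
      simpa using this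
    have := hconv.norm_image_sub_le_of_norm_deriv_le
      (f := fun y => deriv f y - deriv (deriv f) x * (y - x)) (C := K * ‖h‖)
      (fun y _ => (hda y).differentiableAt) (fun y hy => by rw [(hda y).deriv]; exact s1 y hy)
      hxm hv
    simp only [sub_self, mul_zero, sub_zero] at this
    have e : deriv f v - deriv f x - deriv (deriv f) x * (v - x) =
        deriv f v - deriv (deriv f) x * (v - x) - deriv f x := by ring
    rw [e]
    exact this.trans (mul_le_mul_of_nonneg_left (hle v hv) (by positivity))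
  have hv : x + h ∈ closedBall x ‖h‖ := by
    rw [mem_closedBall, dist_eq_norm, add_sub_cancel_left]
  have hda : ∀ y, HasDerivAt (fun y => f y - deriv f x * (y - x) -
      deriv (deriv f) x / 2 * (y - x) ^ 2)
      (deriv f y - deriv f x - deriv (deriv f) x * (y - x)) y := by
    intro y
    have hp : HasDerivAt (fun y : ℂ => (y - x) ^ 2) (2 * (y - x)) y := by
      simpa using ((hasDerivAt_id y).sub_const x).fun_pow 2
    have := ((hf y).hasDerivAt.fun_sub
      (((hasDerivAt_id y).sub_const x).const_mul (deriv f x))).fun_sub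
      (hp.const_mul (deriv (deriv f) x / 2))
    refine this.congr_deriv ?_
    ring
  have s3 := hconv.norm_image_sub_le_of_norm_deriv_le
    (f := fun y => f y - deriv f x * (y - x) - deriv (deriv f) x / 2 * (y - x) ^ 2)
    (C := K * ‖h‖ * ‖h‖) (fun y _ => (hda y).differentiableAt)
    (fun y hy => by rw [(hda y).deriv]; exact s2 y hy) hxm hv
  simp only [sub_self, mul_zero, sub_zero, add_sub_cancel_left, ne_eq, OfNat.ofNat_ne_zero,
    not_false_eq_true, zero_pow] at s3
  have e : f (x + h) - f x - deriv f x * h - deriv (deriv f) x / 2 * h ^ 2 =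
      f (x + h) - deriv f x * h - deriv (deriv f) x / 2 * h ^ 2 - f x := by ring
  rw [e]
  refine s3.trans ?_
  have e2 : K * ‖h‖ * ‖h‖ * ‖h‖ = M * ‖deriv f x‖ * ‖h‖ ^ 3 / s ^ 2 := by rw [hK]; ring
  rw [e2]
  gcongr
  exact (le_max_right _ _).trans (le_max_right _ _)

end Pool.Agent.DS
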